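import Pool.Agent.helper27.PC2.Stmt2
import Pool.Agent.helper26.PC.HREL

/-!
# PC project (second half), module HRELD: relations of the generators of the Hecke algebra of type D
-/

namespace Pool.Agent.helper27.PC

open Module Polynomial

theorem HRELD_gD {n i : ℕ} (h : i < n) : gD n i = genD n ⟨i, h⟩ := by
  unfold gD
  rw [dif_pos h]

theorem HRELD_coe0 {n : ℕ} (h : 0 < n) : ((gD n 0 : WD n) : W n) = g n 0 * g n 1 * g n 0 := by
  rw [HRELD_gD h]
  show (if (0 : ℕ) = 0 then g n 0 * g n 1 * g n 0 else gen n ⟨0, h⟩) = _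
  rw [if_pos rfl]

theorem HRELD_coes {n i : ℕ} (hi : 0 < i) (h : i < n) : ((gD n i : WD n) : W n) = g n i := by
  rw [HRELD_gD h]
  show (if i = 0 then g n 0 * g n 1 * g n 0 else gen n ⟨i, h⟩) = _
  rw [if_neg (by omega), HREL_g h]

/-- parity of the length -/
noncomputable def HRELD_eps (n : ℕ) : WD n →* ℤˣ :=
  (Equiv.Perm.sign.comp (HREL_pi n)).comp (WD n).subtype

theorem HRELD_sign_pi {n i : ℕ} (hi : 0 < i) (h : i < n) :
    Equiv.Perm.sign (HREL_pi n (g n i)) = -1 := by
  have h1 := HREL_eps_gen (n := n) ⟨i, h⟩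
  have h2 : Equiv.Perm.sign (gen n ⟨i, h⟩ : Equiv.Perm (Fin n × Bool)) = 1 :=
    sign_gen_succ ⟨i, h⟩ (by simp only [ne_eq]; omega)
  have h3 : HREL_eps n (gen n ⟨i, h⟩) = Equiv.Perm.sign (gen n ⟨i, h⟩ : Equiv.Perm (Fin n × Bool)) *
    Equiv.Perm.sign (HREL_pi n (gen n ⟨i, h⟩)) := rfl
  rw [h3, h2, one_mul] at h1
  rw [HREL_g h]
  exact h1

theorem HRELD_eps_gD {n : ℕ} (hn : 2 ≤ n) {i : ℕ} (h : i < n) : HRELD_eps n (gD n i) = -1 := by
  show Equiv.Perm.sign (HREL_pi n ((gD n i : WD n) : W n)) = -1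
  rcases Nat.eq_zero_or_pos i with h0 | h0
  · subst h0
    rw [HRELD_coe0 h, map_mul (HREL_pi n), map_mul (HREL_pi n), map_mul Equiv.Perm.sign,
      map_mul Equiv.Perm.sign, HRELD_sign_pi (i := 1) (by omega) (by omega)]
    have e := Int.units_mul_self (Equiv.Perm.sign (HREL_pi n (g n 0)))
    calc Equiv.Perm.sign (HREL_pi n (g n 0)) * -1 * Equiv.Perm.sign (HREL_pi n (g n 0))
        = -(Equiv.Perm.sign (HREL_pi n (g n 0)) * Equiv.Perm.sign (HREL_pi n (g n 0))) := by
          rw [mul_neg, mul_one, neg_mul]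
      _ = -1 := by rw [e]
  · rw [HRELD_coes h0 h]
    exact HRELD_sign_pi h0 h

theorem HRELD_eps_word {n : ℕ} (hn : 2 ≤ n) (l : List (Fin n)) :
    HRELD_eps n (l.map (genD n)).prod = (-1) ^ l.length := by
  induction l with
  | nil => simp
  | cons a l ih =>
    have h1 : genD n a = gD n a.val := by rw [HRELD_gD a.isLt]
    rw [List.map_cons, List.prod_cons, map_mul, ih, h1, HRELD_eps_gD hn a.isLt, List.length_cons,
      pow_succ, mul_comm]

theorem HRELD_len {n : ℕ} (hn : 2 ≤ n) (l : List (Fin n))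
    (h : ∀ l' : List (Fin n), l'.length < l.length → l'.length % 2 = l.length % 2 →
      (l'.map (genD n)).prod ≠ (l.map (genD n)).prod) :
    glen (genD n) ((l.map (genD n)).prod) = l.length := by
  unfold glen
  apply le_antisymm
  · exact Nat.sInf_le (show l.length ∈ {k | ∃ l' : List (Fin n), l'.length = k ∧
        (l'.map (genD n)).prod = (l.map (genD n)).prod} from ⟨l, rfl, rfl⟩)
  · apply le_csInf (show Set.Nonempty {k | ∃ l' : List (Fin n), l'.length = k ∧
        (l'.map (genD n)).prod = (l.map (genD n)).prod} from ⟨l.length, l, rfl, rfl⟩)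
    rintro k ⟨l', h3, h4⟩
    by_contra hk
    push Not at hk
    rw [← h3] at hk
    refine h l' hk ?_ h4
    have e1 := HRELD_eps_word hn l'
    have e2 := HRELD_eps_word hn l
    rw [h4, e2] at e1
    rcases Nat.even_or_odd l.length with h5 | h5 <;> rcases Nat.even_or_odd l'.length with h6 | h6
    · rw [Nat.even_iff] at h5 h6; omega
    · rw [h5.neg_one_pow, h6.neg_one_pow] at e1
      exact absurd e1 (by decide)
    · rw [h5.neg_one_pow, h6.neg_one_pow] at e1
      exact absurd e1 (by decide)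
    · rw [Nat.odd_iff] at h5 h6; omega

/-! ### values -/

/-- action in terms of natural numbers -/
def HRELD_act (i : ℕ) (x : ℕ × Bool) : ℕ × Bool :=
  if i = 0 then (if x.1 = 0 then (1, !x.2) else if x.1 = 1 then (0, !x.2) else x)
  else (if x.1 = i then i - 1 else if x.1 + 1 = i then i else x.1, x.2)

theorem HRELD_act_eq {n i : ℕ} (hn : 2 ≤ n) (h : i < n) (x : Fin n × Bool) :
    (((((gD n i : WD n) : W n).1 x).1.val, (((gD n i : WD n) : W n).1 x).2) : ℕ × Bool) =
      HRELD_act i (x.1.val, x.2) := by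
  rcases Nat.eq_zero_or_pos i with h0 | h0
  · subst h0
    rw [HRELD_coe0 h, HREL_mul3]
    rw [HREL_act_eq (by omega), HREL_act_eq (by omega), HREL_act_eq (by omega)]
    obtain ⟨⟨j, hj⟩, b⟩ := x
    unfold HREL_act HRELD_act
    rcases j with _ | _ | j
    · simp
    · simp
    · simp
  · rw [HRELD_coes h0 h, HREL_act_eq h]
    have hi : i ≠ 0 := by omega
    unfold HREL_act HRELD_act
    rw [if_neg hi, if_neg hi]

theorem HRELD_actp {i : ℕ} (h : 0 < i) (x : ℕ × Bool) : HRELD_act i x =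
    (if x.1 = i then i - 1 else if x.1 + 1 = i then i else x.1, x.2) := by
  unfold HRELD_act
  rw [if_neg (by omega)]

theorem HRELD_act0 (x : ℕ × Bool) : HRELD_act 0 x =
    (if x.1 = 0 then 1 else if x.1 = 1 then 0 else x.1, if x.1 ≤ 1 then !x.2 else x.2) := by
  unfold HRELD_act
  rw [if_pos rfl]
  obtain ⟨j, b⟩ := x
  rcases j with _ | _ | j
  · simp
  · simp
  · simp

theorem HRELD_ext {n : ℕ} {a b : WD n} (h : ∀ x : Fin n × Bool,
    ((((a : W n).1 x).1.val, ((a : W n).1 x).2) : ℕ × Bool) =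
      (((b : W n).1 x).1.val, ((b : W n).1 x).2)) : a = b :=
  Subtype.ext (HREL_ext2 h)

theorem HRELD_mul2 {n : ℕ} (a b : WD n) (x : Fin n × Bool) :
    ((a * b : WD n) : W n).1 x = (a : W n).1 ((b : W n).1 x) := rfl

theorem HRELD_mul3 {n : ℕ} (a b c : WD n) (x : Fin n × Bool) :
    ((a * b * c : WD n) : W n).1 x = (a : W n).1 ((b : W n).1 ((c : W n).1 x)) := rfl

theorem HRELD_mv {n : ℕ} (hn : 2 ≤ n) (c : Fin n) (z : Fin n × Bool) :
    (((genD n c : WD n) : W n).1 z).1.val ≤ z.1.val + 1 := by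
  have h1 : genD n c = gD n c.val := by rw [HRELD_gD c.isLt]
  rw [h1]
  have h2 := congrArg Prod.fst (HRELD_act_eq hn c.isLt z)
  simp only at h2
  rw [h2]
  rcases Nat.eq_zero_or_pos c.val with h0 | h0
  · rw [h0, HRELD_act0]
    simp only
    split_ifs <;> omega
  · rw [HRELD_actp h0]
    simp only
    split_ifs <;> omega

theorem HRELD_braid {n i : ℕ} (hi : 1 ≤ i) (h : i + 1 < n) :
    gD n i * gD n (i + 1) * gD n i = gD n (i + 1) * gD n i * gD n (i + 1) := by
  apply Subtype.ext
  show ((gD n i : WD n) : W n) * ((gD n (i + 1) : WD n) : W n) * ((gD n i : WD n) : W n) =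
    ((gD n (i + 1) : WD n) : W n) * ((gD n i : WD n) : W n) * ((gD n (i + 1) : WD n) : W n)
  rw [HRELD_coes (by omega) (by omega), HRELD_coes (by omega) h]
  exact HREL_braid hi h

theorem HRELD_comm {n i j : ℕ} (hi : 1 ≤ i) (hij : i + 1 < j) (hj : j < n) :
    gD n i * gD n j = gD n j * gD n i := by
  apply Subtype.ext
  show ((gD n i : WD n) : W n) * ((gD n j : WD n) : W n) =
    ((gD n j : WD n) : W n) * ((gD n i : WD n) : W n)
  rw [HRELD_coes (by omega) (by omega), HRELD_coes (by omega) hj]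
  exact HREL_comm hij hj

theorem HRELD_braid0 {n : ℕ} (h : 2 < n) :
    gD n 0 * gD n 2 * gD n 0 = gD n 2 * gD n 0 * gD n 2 := by
  apply HRELD_ext
  rintro ⟨⟨j, hj⟩, b⟩
  rw [HRELD_mul3, HRELD_mul3]
  repeat rw [HRELD_act_eq (by omega) (by omega)]
  unfold HRELD_act
  rcases j with _ | _ | _ | j
  · simp
  · simp
  · simp
  · simp

theorem HRELD_comm01 {n : ℕ} (h : 1 < n) : gD n 0 * gD n 1 = gD n 1 * gD n 0 := by
  apply HRELD_ext
  rintro ⟨⟨j, hj⟩, b⟩
  rw [HRELD_mul2, HRELD_mul2]
  repeat rw [HRELD_act_eq (by omega) (by omega)]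
  unfold HRELD_act
  rcases j with _ | _ | j
  · simp
  · simp
  · simp

theorem HRELD_comm0 {n j : ℕ} (h3 : 3 ≤ j) (h : j < n) : gD n 0 * gD n j = gD n j * gD n 0 := by
  apply HRELD_ext
  intro x
  rw [HRELD_mul2, HRELD_mul2, HRELD_act_eq (by omega) (by omega), HRELD_act_eq (by omega) h,
    HRELD_act_eq (by omega) h, HRELD_act_eq (by omega) (by omega)]
  rw [HRELD_act0, HRELD_act0, HRELD_actp (by omega), HRELD_actp (by omega)]
  apply Prod.ext
  · simp only
    split_ifs <;> omega
  · simp only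
    split_ifs <;> first | rfl | (exfalso; omega)

/-! ### lengths of short words -/

/-- a word of length two -/
theorem HRELD_len2 {n i j : ℕ} (hn : 2 ≤ n) (hi : i < n) (hj : j < n) (h : gD n i * gD n j ≠ 1) :
    glen (genD n) ((([⟨i, hi⟩, ⟨j, hj⟩] : List (Fin n)).map (genD n)).prod) = 2 := by
  have := HRELD_len hn ([⟨i, hi⟩, ⟨j, hj⟩] : List (Fin n)) ?_
  · exact this
  · intro l' h1 h2
    have : l'.length = 0 := by
      simp at h1 h2
      omega
    rw [List.length_eq_zero_iff] at this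
    subst this
    simp only [List.map_nil, List.prod_nil, List.map_cons, List.prod_cons, mul_one]
    rw [HRELD_gD hi, HRELD_gD hj] at h
    exact fun h' => h h'.symm

/-- a word of length three -/
theorem HRELD_len3 {n i j k : ℕ} (hn : 2 ≤ n) (hi : i < n) (hj : j < n) (hk : k < n)
    (h : ∀ a : Fin n, genD n a ≠ gD n i * gD n j * gD n k) :
    glen (genD n) ((([⟨i, hi⟩, ⟨j, hj⟩, ⟨k, hk⟩] : List (Fin n)).map (genD n)).prod) = 3 := by
  have := HRELD_len hn ([⟨i, hi⟩, ⟨j, hj⟩, ⟨k, hk⟩] : List (Fin n)) ?_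
  · exact this
  · intro l' h1 h2
    have : l'.length = 1 := by
      simp at h1 h2
      omega
    rw [List.length_eq_one_iff] at this
    obtain ⟨a, rfl⟩ := this
    simp only [List.map_nil, List.prod_nil, List.map_cons, List.prod_cons, mul_one]
    rw [HRELD_gD hi, HRELD_gD hj, HRELD_gD hk, mul_assoc] at h
    exact h a

theorem HRELD_ne1 {n : ℕ} {w : WD n} (x : Fin n × Bool)
    (h : ((((w : W n).1 x).1.val, ((w : W n).1 x).2) : ℕ × Bool) ≠ (x.1.val, x.2)) : w ≠ 1 := by
  rintro rfl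
  exact h rfl

theorem HRELD_T2 {n : ℕ} {H : Type} [Ring H] [Algebra A H] {T : Basis (WD n) A H}
    (h : ∀ l : List (Fin n), glen (genD n) ((l.map (genD n)).prod) = l.length →
      T ((l.map (genD n)).prod) = (l.map fun i => T (genD n i)).prod) {i j : ℕ} (hi : i < n)
    (hj : j < n)
    (hl : glen (genD n) ((([⟨i, hi⟩, ⟨j, hj⟩] : List (Fin n)).map (genD n)).prod) = 2) :
    T (gD n i * gD n j) = T (gD n i) * T (gD n j) := by
  have := h [⟨i, hi⟩, ⟨j, hj⟩] hl
  rw [HRELD_gD hi, HRELD_gD hj]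
  simpa using this

theorem HRELD_T3 {n : ℕ} {H : Type} [Ring H] [Algebra A H] {T : Basis (WD n) A H}
    (h : ∀ l : List (Fin n), glen (genD n) ((l.map (genD n)).prod) = l.length →
      T ((l.map (genD n)).prod) = (l.map fun i => T (genD n i)).prod) {i j k : ℕ} (hi : i < n)
    (hj : j < n) (hk : k < n)
    (hl : glen (genD n)
      ((([⟨i, hi⟩, ⟨j, hj⟩, ⟨k, hk⟩] : List (Fin n)).map (genD n)).prod) = 3) :
    T (gD n i * gD n j * gD n k) = T (gD n i) * T (gD n j) * T (gD n k) := by
  have := h [⟨i, hi⟩, ⟨j, hj⟩, ⟨k, hk⟩] hl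
  rw [HRELD_gD hi, HRELD_gD hj, HRELD_gD hk]
  simp only [List.map_cons, List.map_nil, List.prod_cons, List.prod_nil, mul_one] at this
  rw [mul_assoc, this, mul_assoc]

/-- module HRELD -/
theorem HRELD (hTWG : TWG_stmt) (hGEND : GEND_stmt) : HRELD_stmt := by
  intro n H _ _ T hn hT
  obtain ⟨-, hw⟩ := hTWG (Fin n) (WD n) (genD n) (hGEND n) H T hT
  -- commuting generators
  have hcomm : ∀ i j, (hi : i < n) → (hj : j < n) → gD n i * gD n j = gD n j * gD n i →
      gD n i * gD n j ≠ 1 → T (gD n i) * T (gD n j) = T (gD n j) * T (gD n i) := by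
    intro i j hi hj hc key
    have t1 := HRELD_T2 hw hi hj (HRELD_len2 hn hi hj key)
    have t2 := HRELD_T2 hw hj hi (HRELD_len2 hn hj hi (by rw [← hc]; exact key))
    rw [← t1, ← t2, hc]
  -- braid relations
  have hbraid : ∀ i j, (hi : i < n) → (hj : j < n) →
      gD n i * gD n j * gD n i = gD n j * gD n i * gD n j →
      (∀ a : Fin n, genD n a ≠ gD n i * gD n j * gD n i) →
      T (gD n i) * T (gD n j) * T (gD n i) = T (gD n j) * T (gD n i) * T (gD n j) := by
    intro i j hi hj hc key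
    have t1 := HRELD_T3 hw hi hj hi (HRELD_len3 hn hi hj hi key)
    have t2 := HRELD_T3 hw hj hi hj (HRELD_len3 hn hj hi hj (by rw [← hc]; exact key))
    rw [← t1, ← t2, hc]
  refine ⟨?_, ?_, ?_, ?_, ?_, ?_⟩
  · intro i hi
    have h := hT.quad ⟨i, hi⟩
    rw [← HRELD_gD hi] at h
    set t := T (gD n i) with ht
    have c1 : algebraMap A H v * t = t * algebraMap A H v := Algebra.commutes _ _
    have e : (t + algebraMap A H vi) * (t - algebraMap A H v) =
        t * t - (algebraMap A H (v - vi)) * t - 1 := by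
      have e2 : algebraMap A H vi * algebraMap A H v = 1 := by
        rw [← map_mul, mul_comm, HREL_vvi, map_one]
      rw [add_mul, mul_sub, mul_sub, e2, ← c1, map_sub, sub_mul]
      abel
    rw [e] at h
    have h2 : t * t = algebraMap A H (v - vi) * t + 1 := by
      have := sub_eq_zero.mp (by rw [sub_sub] at h; exact h)
      exact this
    show t * t = (v - vi) • t + 1
    rw [Algebra.smul_def]
    exact h2
  · intro i hi h
    refine hbraid i (i + 1) (by omega) h (HRELD_braid hi h) ?_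
    intro a ha
    have h1 := HRELD_mv hn a (⟨i - 1, by omega⟩, true)
    rw [ha, HRELD_mul3] at h1
    have e1 := HRELD_act_eq (n := n) (i := i) hn (by omega) (⟨i - 1, by omega⟩, true)
    have e2 := HRELD_act_eq (n := n) (i := i + 1) hn h
      (((gD n i : WD n) : W n).1 (⟨i - 1, by omega⟩, true))
    have e3 := HRELD_act_eq (n := n) (i := i) hn (by omega)
      (((gD n (i + 1) : WD n) : W n).1 (((gD n i : WD n) : W n).1 (⟨i - 1, by omega⟩, true)))
    rw [e2, e1] at e3
    rw [HRELD_actp (by omega), HRELD_actp (by omega), HRELD_actp (by omega)] at e3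
    have e4 := congrArg Prod.fst e3
    simp only at e4 h1
    rw [e4] at h1
    have : i - 1 + 1 = i := by omega
    split_ifs at h1 <;> omega
  · intro h
    refine hbraid 0 2 (by omega) h (HRELD_braid0 h) ?_
    intro a ha
    have h1 := HRELD_mv hn a (⟨0, by omega⟩, true)
    rw [ha, HRELD_mul3] at h1
    have e1 := HRELD_act_eq (n := n) (i := 0) hn (by omega) (⟨0, by omega⟩, true)
    have e2 := HRELD_act_eq (n := n) (i := 2) hn h
      (((gD n 0 : WD n) : W n).1 (⟨0, by omega⟩, true))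
    have e3 := HRELD_act_eq (n := n) (i := 0) hn (by omega)
      (((gD n 2 : WD n) : W n).1 (((gD n 0 : WD n) : W n).1 (⟨0, by omega⟩, true)))
    rw [e2, e1] at e3
    have e4 := congrArg Prod.fst e3
    simp only [HRELD_act] at e4
    simp at e4 h1
    omega
  · intro h
    refine hcomm 0 1 (by omega) h (HRELD_comm01 h) ?_
    apply HRELD_ne1 (⟨0, by omega⟩, true)
    rw [HRELD_mul2, HRELD_act_eq hn (by omega), HRELD_act_eq hn (by omega)]
    unfold HRELD_act
    simp
  · intro j h3 hj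
    refine hcomm 0 j (by omega) hj (HRELD_comm0 h3 hj) ?_
    apply HRELD_ne1 (⟨j, hj⟩, true)
    rw [HRELD_mul2, HRELD_act_eq hn (by omega), HRELD_act_eq hn hj, HRELD_act0,
      HRELD_actp (by omega)]
    intro h1
    have h2 := congrArg Prod.fst h1
    simp only at h2
    split_ifs at h2 <;> omega
  · intro i j hi hij hj
    refine hcomm i j (by omega) hj (HRELD_comm hi hij hj) ?_
    apply HRELD_ne1 (⟨j, hj⟩, true)
    rw [HRELD_mul2, HRELD_act_eq hn (by omega), HRELD_act_eq hn hj, HRELD_actp (by omega),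
      HRELD_actp (by omega)]
    intro h1
    have h2 := congrArg Prod.fst h1
    simp only at h2
    split_ifs at h2 <;> omega

end Pool.Agent.helper27.PC
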