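import Pool.Agent.helper27.PC2.Stmt2

/-!
# PC project (second half), module TWG: `T_w` along a reduced word, general group
-/

namespace Pool.Agent.helper27.PC

open Module Polynomial

theorem TWG_len_le {ι G : Type} [Group G] (s : ι → G) (l : List ι) :
    glen s ((l.map s).prod) ≤ l.length :=
  Nat.sInf_le ⟨l, rfl, rfl⟩

theorem TWG_len_one {ι G : Type} [Group G] (s : ι → G) : glen s (1 : G) = 0 :=
  Nat.le_zero.1 (TWG_len_le s [])

/-- a shortest word -/
theorem TWG_exists {ι G : Type} [Group G] (s : ι → G) (w : G)
    (h : ∃ l : List ι, (l.map s).prod = w) :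
    ∃ l : List ι, l.length = glen s w ∧ (l.map s).prod = w := by
  have h1 : ({k | ∃ l : List ι, l.length = k ∧ (l.map s).prod = w}).Nonempty := by
    obtain ⟨l, hl⟩ := h
    exact ⟨l.length, l, rfl, hl⟩
  exact Nat.sInf_mem h1

/-- module TWG -/
theorem TWG : TWG_stmt := by
  intro ι G _ s hgen H _ _ T hT
  have hone : T 1 = 1 := by
    have h1 : LinearMap.mulLeft A (T 1) = LinearMap.id := by
      refine T.ext fun w => ?_
      show T 1 * T w = T w
      rw [hT.mul 1 w (by rw [TWG_len_one, one_mul, zero_add]), one_mul]
    have h2 := congrArg (fun φ : H →ₗ[A] H => φ 1) h1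
    simpa using h2
  refine ⟨hone, fun l => ?_⟩
  induction l with
  | nil =>
    intro _
    simpa using hone
  | cons a l ih =>
    intro hlen
    rw [List.map_cons, List.prod_cons, List.length_cons] at hlen
    have hle : glen s ((l.map s).prod) ≤ l.length := TWG_len_le s l
    obtain ⟨m0, hm3, hm4⟩ := TWG_exists s ((l.map s).prod) ⟨l, rfl⟩
    have h1 : glen s (s a * (l.map s).prod) ≤ glen s ((l.map s).prod) + 1 := by
      have h2 := TWG_len_le s (a :: m0)
      rw [List.map_cons, List.prod_cons, List.length_cons, hm3, hm4] at h2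
      exact h2
    have h2 : glen s ((l.map s).prod) = l.length := by omega
    have h3 : glen s (s a) = 1 := by
      have h4 : glen s (s a) ≤ 1 := by
        have h5 := TWG_len_le s [a]
        rw [List.map_cons, List.map_nil, List.prod_singleton] at h5
        exact h5
      obtain ⟨m1, hm5, hm6⟩ := TWG_exists s (s a) ⟨[a], by
        rw [List.map_cons, List.map_nil, List.prod_singleton]⟩
      by_contra h6
      have h7 : glen s (s a) = 0 := by omega
      rw [h7] at hm5
      have h8 : m1 = [] := List.length_eq_zero_iff.1 hm5
      rw [h8] at hm6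
      have h9 : s a = 1 := by rw [← hm6]; rfl
      rw [h9, one_mul] at hlen
      omega
    rw [List.map_cons, List.prod_cons, List.map_cons, List.prod_cons, ← ih h2]
    exact (hT.mul _ _ (by omega)).symm

end Pool.Agent.helper27.PC
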